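import Pool.Agent.K7.H1.DM.Thms

/-!
# MP_b696eb_nt: Deligne's conjecture for Artin twists when the zeros come from a field of
prime power degree

`M` is a pure motive over `ℚ` (`Motive`, given by its realizations and the comparison isomorphism),
critical and with `H^{p, p} = 0` for all `p`. Let `F` be a finite Galois extension of `ℚ` with
Galois group `G`, let `E` be a number field with enough roots of unity, and let `L χ` be the
L-function of `M ⊗ χ`, for the irreducible complex characters `χ` of `G`.

Let `F' = F^K` be a Galois extension of `ℚ` of prime power degree in `F` and let `λ` be a linear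
character of `G`, for example the trivial one. Suppose that the order of `L(M / F, s)` at `s = 0` is
at most one, or is at most the order of the product of the `L χ s ^ χ(1)` over the `χ` which are
multiples of `λ` on `K = Gal(F / F')`; this is the order of `L(M ⊗ λ / F', s)`. Thus all the zeros
come from `F'`; their number may be arbitrarily large.

If Deligne's conjecture holds for the monomial twists `M ⊗ Ind_U^G ψ`, where `U` is hyperelementary,
with coefficients in `E`, then it holds for the twists of `M` by **all** Artin motives of `F` with
coefficients in `E`.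
-/

set_option autoImplicit false

namespace Pool.Agent.Results.MP_b696eb_nt.OldZeros

open Pool.Agent.R389 Pool.Agent.K7.H1.DM

/-- **Deligne's conjecture for Artin twists, zeros from a field of prime power degree.** -/
theorem result {M : Motive} (hM : M.Critical) {F : Type} [Field F] [NumberField F] [IsGalois ℚ F]
    {ι : F →+* ℂ} {c : GQ F} (hc : IsConj ι c) {E : Type} [Field E] [NumberField E] {ζ : E}
    (hζ : IsPrimitiveRoot ζ (Monoid.exponent (GQ F))) {L : (GQ F → ℂ) → ℂ → ℂ} (hL : Mero L)
    (hmon : MonomialTwists M ι c L E Hyper) {deg : (GQ F → ℂ) → ℕ} (hdeg : IsDegree deg)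
    {p : ℕ} (hp : p.Prime) (K : Subgroup (GQ F)) [K.Normal] (hQ : IsPGroup p (GQ F ⧸ K))
    (lam : GQ F →* ℂˣ) (hz : ordL L deg ≤ max 1 (ordOn L deg K lam)) {n : ℕ}
    (ρ : Representation E (GQ F) (Fin n → E)) : DeligneAll M ι c L ρ :=
  Pool.Agent.K7.H1.DM.thm_old hM hc hζ hL hmon hdeg hp K hQ lam hz ρ

end Pool.Agent.Results.MP_b696eb_nt.OldZeros
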