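import Pool.Agent.K7.H1.DM.Thms

/-!
# MP_b696eb_nt: Deligne's conjecture for Artin twists with coefficients, order at most two

`M` is a pure motive over `ℚ` (`Motive`, given by its realizations and the comparison isomorphism),
critical and with `H^{p, p} = 0` for all `p`. Let `F` be a finite Galois extension of `ℚ` with
Galois group `G`, let `E` be a number field with enough roots of unity, and let `L χ` be the
L-function of `M ⊗ χ`, for the irreducible complex characters `χ` of `G`.

Suppose that `L(M / F, s) = ∏ χ, L χ s ^ χ(1)` has order at most two at `s = 0` and that no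
L-function of `M ⊗ Ind_H^G χ`, where `χ` is the two-dimensional character of a quotient of `H` which
is a quaternion group of order 8, has order one at `s = 0` (so there is no condition if the Galois
group has no quaternion subquotient). If Deligne's conjecture holds for the monomial twists
`M ⊗ Ind_U^G ψ` with coefficients in `E`, then it holds for the twists of `M` by **all** Artin
motives of `F` with coefficients in `E`: for all representations `ρ` of `G` over `E` and all periods
`x` of `M ⊗ ρ` there is `e` in `E` such that the value `L(M ⊗ τ ρ, 0)` is `τ(e) * x τ`, for all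
embeddings `τ` of `E` in `ℂ`.
-/

set_option autoImplicit false

namespace Pool.Agent.Results.MP_b696eb_nt.OrderTwo

open Pool.Agent.R389 Pool.Agent.K7.H1.DM

/-- **Deligne's conjecture for Artin twists with coefficients, order at most two.** -/
theorem result {M : Motive} (hM : M.Critical) {F : Type} [Field F] [NumberField F] [IsGalois ℚ F]
    {ι : F →+* ℂ} {c : GQ F} (hc : IsConj ι c) {E : Type} [Field E] [NumberField E] {ζ : E}
    (hζ : IsPrimitiveRoot ζ (Monoid.exponent (GQ F))) {L : (GQ F → ℂ) → ℂ → ℂ} (hL : Mero L)
    (hmon : MonomialTwists M ι c L E (fun _ => True)) {deg : (GQ F → ℂ) → ℕ} (hdeg : IsDegree deg)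
    (hz : ordL L deg ≤ 2) (hquat : NoQuaternion L) {n : ℕ}
    (ρ : Representation E (GQ F) (Fin n → E)) : DeligneAll M ι c L ρ :=
  Pool.Agent.K7.H1.DM.thm_two hM hc hζ hL hmon hdeg hz hquat ρ

end Pool.Agent.Results.MP_b696eb_nt.OrderTwo
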