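import Pool.Agent.K7.H1.DM.Thms

/-!
# MP_b696eb_nt: Deligne's conjecture for the twists of a motive by rational Artin motives

`M` is a pure motive over `ℚ`, given by its Betti realization `B` with the Hodge decomposition and
`F_∞`, its de Rham realization with the Hodge filtration and the comparison isomorphism (`Motive`);
it is critical and `H^{p, p} = 0` for all `p`, so that all twists `M ⊗ ρ` by Artin motives are
critical. Let `F` be a finite Galois extension of `ℚ` with Galois group `G`, and let `L χ` be the
L-function of `M ⊗ χ`, for the irreducible complex characters `χ` of `G`, so that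
`L(M ⊗ ρ, s) = ∏ χ, L χ s ^ m χ` if `ρ` has the character `∑ χ, m χ • χ`. The period of `M ⊗ ρ`
(`IsPeriod`) is the determinant of the comparison map from the part of the Betti realization
`M_B ⊗ ρ` fixed by `F_∞` to the quotient `(ρ ⊗ F)^G ⊗ M_dR / F^0` of the de Rham realization, in
rational bases.

Suppose that `L(M / F, s) = ∏ χ, L χ s ^ χ(1)` has order at most two at `s = 0`. If Deligne's
conjecture holds for the monomial twists `M ⊗ Ind_U^G ψ`, with coefficients in a field `E` with
enough roots of unity (`MonomialTwists`), then it holds for **all** `M ⊗ ρ`, where `ρ` is a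
representation of `G` over `ℚ` such that `L(M ⊗ ρ, s)` has no pole at `s = 0`: the value
`L(M ⊗ ρ, 0)` is a rational multiple of the period, also if it is a quotient of values of
L-functions of monomial twists which vanish at `s = 0`.

For example, for a motive `M` with complex multiplication the monomial twists are motives of
algebraic Hecke characters, for which Deligne's conjecture is known (Harder-Schappacher, Kufner,
Kings-Sprang).
-/

set_option autoImplicit false

namespace Pool.Agent.Results.MP_b696eb_nt.RationalArtinTwists

open Pool.Agent.R389 Pool.Agent.K7.H1.DM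

/-- **Deligne's conjecture for rational Artin twists, order at most two.** -/
theorem result {M : Motive} (hM : M.Critical) {F : Type} [Field F] [NumberField F] [IsGalois ℚ F]
    {ι : F →+* ℂ} {c : GQ F} (hc : IsConj ι c) {E : Type} [Field E] [NumberField E] {ζ : E}
    (hζ : IsPrimitiveRoot ζ (Monoid.exponent (GQ F))) {L : (GQ F → ℂ) → ℂ → ℂ} (hL : Mero L)
    (hmon : MonomialTwists M ι c L E (fun _ => True)) {deg : (GQ F → ℂ) → ℕ} (hdeg : IsDegree deg)
    (hz : ordL L deg ≤ 2) {n : ℕ} (ρ : Representation ℚ (GQ F) (Fin n → ℚ))
    {m : (GQ F → ℂ) → ℕ} (hm : IsMult ρ (algebraMap ℚ ℂ) m) (hpole : 0 ≤ ordL L m) :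
    DeligneAll M ι c L ρ :=
  Pool.Agent.K7.H1.DM.thm_rat hM hc hζ hL hmon hdeg hz ρ hm hpole

end Pool.Agent.Results.MP_b696eb_nt.RationalArtinTwists
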