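import Pool.Agent.K7.H1.DM.Thms

/-!
# MP_b696eb_nt: Deligne's conjecture for Artin twists in solvable extensions, small growth of the
order of vanishing

`M` is a pure motive over `ℚ` (`Motive`, given by its realizations and the comparison isomorphism),
critical and with `H^{p, p} = 0` for all `p`. Let `F` be a finite Galois extension of `ℚ` with
Galois group `G`, let `E` be a number field with enough roots of unity, and let `L χ` be the
L-function of `M ⊗ χ`, for the irreducible complex characters `χ` of `G`.

Let `F'` be a Galois extension of `ℚ` in `F` such that `N = Gal(F / F')` is solvable, and let `F''`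
be the maximal abelian extension of `F'` in `F`. Let `λ` be a linear character of `N`, for example
the trivial one, and suppose that the order at `s = 0` of `L(M / F, s)` is smaller than the order of
`L(M ⊗ λ / F', s)` plus `p`, for all prime divisors `p` of the degree of `F / F'`. Thus the order of
vanishing may be arbitrarily large. If Deligne's conjecture holds for the twists of `M` by all Artin
motives of `F''` and for the monomial twists `M ⊗ Ind_U^G ψ`, where `U` is solvable, with
coefficients in `E`, then it holds for the twists of `M` by **all** Artin motives of `F` with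
coefficients in `E`.
-/

set_option autoImplicit false

namespace Pool.Agent.Results.MP_b696eb_nt.SmallGrowth

open Pool.Agent.R389 Pool.Agent.K7.H1.DM

/-- **Deligne's conjecture for Artin twists in solvable extensions, small growth.** -/
theorem result {M : Motive} (hM : M.Critical) {F : Type} [Field F] [NumberField F] [IsGalois ℚ F]
    {ι : F →+* ℂ} {c : GQ F} (hc : IsConj ι c) {E : Type} [Field E] [NumberField E] {ζ : E}
    (hζ : IsPrimitiveRoot ζ (Monoid.exponent (GQ F))) {L : (GQ F → ℂ) → ℂ → ℂ} (hL : Mero L)
    (hmon : MonomialTwists M ι c L E Group.IsSolvable) {deg : (GQ F → ℂ) → ℕ}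
    (hdeg : IsDegree deg) (N : Subgroup (GQ F)) [N.Normal] (hN : Group.IsSolvable N)
    (lam : N →* ℂˣ) (hz : Growth L deg N lam)
    (hold : ∀ (n : ℕ) (σ : Representation E (GQ F) (Fin n → E)),
      TrivialOnCommutators N σ → DeligneFor M ι c L σ) {n : ℕ}
    (ρ : Representation E (GQ F) (Fin n → E)) : DeligneAll M ι c L ρ :=
  Pool.Agent.K7.H1.DM.thm_small hM hc hζ hL hmon hdeg N hN lam hz hold ρ

end Pool.Agent.Results.MP_b696eb_nt.SmallGrowth
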